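import Mathlib
import Pool.Agent.Helper773.SpecVar.Spectral
import Pool.Agent.H434.Normal

/-!
A uniform upper bound for the optimal constants `c_n` of spectral variation of normal matrices:
`c_n ≤ 2.275` for all `n`.
-/

set_option autoImplicit false

open Matrix Polynomial Pool.Agent.Helper773.SpecVar
open scoped Matrix.Norms.L2Operator InnerProductSpace ComplexConjugate

namespace Pool.Agent.Results.MP_29a676_an.UniformUpper

/-- The columns of a unitary matrix form an orthonormal basis of joint eigenvectors. -/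
lemma exists_basis {n : ℕ} [Nonempty (Fin n)] (U : Matrix (Fin n) (Fin n) ℂ) (hU : Uᴴ * U = 1) (a : Fin n → ℂ) :
    ∃ u : OrthonormalBasis (Fin n) ℂ (EuclideanSpace ℂ (Fin n)),
      (∀ j, Matrix.toEuclideanLin (U * diagonal a * Uᴴ) (u j) = a j • u j) ∧
      (∀ j, Matrix.toEuclideanLin (U * diagonal a * Uᴴ)ᴴ (u j) = conj (a j) • u j) := by
  classical
  set f : Fin n → EuclideanSpace ℂ (Fin n) := fun j => WithLp.toLp 2 (fun i => U i j) with hf
  have hon : Orthonormal ℂ f := by
    rw [orthonormal_iff_ite]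
    intro i j
    have h1 := congrFun (congrFun hU i) j
    rw [Matrix.mul_apply, Matrix.one_apply] at h1
    rw [← h1, PiLp.inner_apply]
    refine Finset.sum_congr rfl fun t _ => ?_
    rw [RCLike.inner_apply, Matrix.conjTranspose_apply, RCLike.star_def]
    simp only [hf]
    ring
  have hcard : Fintype.card (Fin n) = Module.finrank ℂ (EuclideanSpace ℂ (Fin n)) := by
    rw [finrank_euclideanSpace_fin, Fintype.card_fin]
  have hb : ⇑(basisOfOrthonormalOfCardEqFinrank hon hcard) = f :=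
    coe_basisOfOrthonormalOfCardEqFinrank hon hcard
  have hu : ∀ j, ((basisOfOrthonormalOfCardEqFinrank hon hcard).toOrthonormalBasis
      (by rw [hb]; exact hon)) j = f j := by
    intro j
    rw [Module.Basis.coe_toOrthonormalBasis, hb]
  have key : ∀ c : Fin n → ℂ, ∀ j,
      Matrix.toEuclideanLin (U * diagonal c * Uᴴ) (f j) = c j • f j := by
    intro c j
    have e : f j = WithLp.toLp 2 (U *ᵥ Pi.single j 1) := by
      simp only [hf]
      rw [Matrix.mulVec_single_one]
      rfl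
    rw [e, Matrix.toLpLin_apply, Matrix.mulVec_mulVec, Matrix.mul_assoc, hU, Matrix.mul_one,
      ← Matrix.mulVec_mulVec, Matrix.diagonal_mulVec_single, mul_one]
    have e2 : (Pi.single j (c j) : Fin n → ℂ) = c j • Pi.single j 1 := by
      rw [← Pi.single_smul, smul_eq_mul, mul_one]
    rw [e2, Matrix.mulVec_smul]
    rfl
  refine ⟨(basisOfOrthonormalOfCardEqFinrank hon hcard).toOrthonormalBasis
    (by rw [hb]; exact hon), ?_, ?_⟩
  · intro j
    rw [hu j]
    exact key a j
  · intro j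
    rw [hu j]
    have e : (U * diagonal a * Uᴴ)ᴴ = U * diagonal (fun j => conj (a j)) * Uᴴ := by
      rw [Matrix.conjTranspose_mul, Matrix.conjTranspose_mul, Matrix.conjTranspose_conjTranspose,
        Matrix.diagonal_conjTranspose, Matrix.mul_assoc]
      rfl
    rw [e]
    exact key _ j

lemma norm_apply_le {n : ℕ} (M : Matrix (Fin n) (Fin n) ℂ) (y : EuclideanSpace ℂ (Fin n)) :
    ‖Matrix.toEuclideanLin M y‖ ≤ ‖M‖ * ‖y‖ := Matrix.l2_opNorm_mulVec M y

/-- For all `n` and all normal complex `n × n` matrices `A`, `B` with eigenvalues `α_k`, `β_k`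
(listed with multiplicity), the spectral distance is at most `2.275 ‖A - B‖`. -/
theorem result : ∀ (n : ℕ) (A B : Matrix (Fin n) (Fin n) ℂ), A * Aᴴ = Aᴴ * A → B * Bᴴ = Bᴴ * B →
    ∀ α β : Fin n → ℂ, IsEigList A α → IsEigList B β → spDist α β ≤ 2.275 * ‖A - B‖ := by
  intro n A B hA hB α β hα hβ
  rcases Nat.eq_zero_or_pos n with h0 | hn
  · subst h0
    have h1 : spDist α β = 0 := by simp [spDist]
    rw [h1]
    positivity
  have : Nonempty (Fin n) := ⟨⟨0, hn⟩⟩
  obtain ⟨U, a, hU, hAU⟩ := exists_diag A hA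
  obtain ⟨W, b, hW, hBW⟩ := exists_diag B hB
  have e1 : ∏ k, (X - C (α k)) = ∏ k, (X - C (a k)) := by
    rw [← hα, hAU, charpoly_of U (mul_eq_one_comm.1 hU) a]
  have e2 : ∏ k, (X - C (b k)) = ∏ k, (X - C (β k)) := by
    rw [← hβ, hBW, charpoly_of W (mul_eq_one_comm.1 hW) b]
  obtain ⟨τ, hτ⟩ := perm_of_prod α a e1
  obtain ⟨ρ, hρ⟩ := perm_of_prod b β e2
  obtain ⟨u, hu1, hu2⟩ := exists_basis U hU a
  obtain ⟨v, hv1, hv2⟩ := exists_basis W hW b
  rw [← hAU] at hu1 hu2
  rw [← hBW] at hv1 hv2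
  have hL1 : ∀ y, ‖Matrix.toEuclideanLin B y - Matrix.toEuclideanLin A y‖ ≤ ‖A - B‖ * ‖y‖ := by
    intro y
    have := norm_apply_le (B - A) y
    rwa [map_sub, LinearMap.sub_apply, norm_sub_rev B A] at this
  have hL2 : ∀ y, ‖Matrix.toEuclideanLin Bᴴ y - Matrix.toEuclideanLin Aᴴ y‖ ≤
      ‖A - B‖ * ‖y‖ := by
    intro y
    have := norm_apply_le (B - A)ᴴ y
    rwa [Matrix.l2_opNorm_conjTranspose, norm_sub_rev B A, Matrix.conjTranspose_sub, map_sub,
      LinearMap.sub_apply] at this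
  refine le_of_forall_gt_imp_ge_of_dense fun d hd => ?_
  have hd' : 91 / 40 * ‖A - B‖ < d := by
    have : (2.275 : ℝ) = 91 / 40 := by norm_num
    rwa [this] at hd
  obtain ⟨σ, hσ⟩ := Pool.Agent.H434.matching_normal u v a b
    (Matrix.toEuclideanLin A) (Matrix.toEuclideanLin Aᴴ)
    (Matrix.toEuclideanLin B) (Matrix.toEuclideanLin Bᴴ) hu1 hu2 hv1 hv2
    ‖A - B‖ (norm_nonneg _) hL1 hL2 d hd'
  have hd0 : 0 ≤ d := le_trans (by positivity) hd.le
  have hfin : BddBelow (Set.range fun σ : Equiv.Perm (Fin n) => ⨆ k : Fin n, ‖α k - β (σ k)‖) :=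
    (Set.finite_range _).bddBelow
  refine (ciInf_le hfin ((τ.trans σ).trans ρ)).trans ?_
  refine Real.iSup_le (fun k => ?_) hd0
  have h1 := hσ (τ k)
  rw [hτ k, ← hρ (σ (τ k))] at h1
  exact h1.le

end Pool.Agent.Results.MP_29a676_an.UniformUpper
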